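import Pool.Agent.H.MP_e16607_lc.A

namespace Pool.Agent.Results.MP_e16607_lc.Hard

open Pool.Agent.Lib.CX Pool.Agent.Lib.CX2 Pool.Agent.H.MP_e16607_lc

theorem result :
    (Sig2Hard fun a : Gr × ℕ => Disc a.1.G a.2) ∧ (Sig2Hard fun a : Gr × ℕ => DiscC a.1.G a.2) ∧
    ((InNP fun a : Gr × ℕ => Disc a.1.G a.2) ∨ (InNP fun a : Gr × ℕ => DiscC a.1.G a.2) →
      ∀ A : List Bool → Prop, InNP A → InNP fun w => ¬A w) :=
  ⟨hard1, hard2, fun h _ hA => h.elim (fun h => h.red (hard1 _ (sig2_of_conp hA)))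
    fun h => h.red (hard2 _ (sig2_of_conp hA))⟩

end Pool.Agent.Results.MP_e16607_lc.Hard
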